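import Pool.Agent.Work.MP_fe3720_an.Main
import Pool.Agent.Work.MP_fe3720_an.Bridge

/-! # RR-spaces of the form `Z × ℂ` have the density property

`Z` is any Stein manifold of pure dimension `d ≥ 1`, realised as a closed complex submanifold of
some `ℂ^N` given by global holomorphic equations; `holLine Z` is the algebra of the holomorphic
functions on `X = Z × ℂ`. If `X` is an RR-space, or more generally if the group of holomorphic
automorphisms of `X` is transitive on ordered pairs of distinct points, then `X` has the density
property. -/

namespace Pool.Agent.Results.MP_fe3720_an.ProductWithLine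

open Pool.Agent.MP_fe3720

theorem result {N d : ℕ} (hd : 1 ≤ d) (Z : Set (Fin N → ℂ)) (hZ : IsSteinSubmanifold N d Z)
    (h : DensityRR.IsRR (holLine Z) ∨ IsTwoTransitive (holLine Z)) :
    DensityRR.DensityProperty (holLine Z) :=
  (DensityRR.density_iff _).2
    (h.elim (fun h => (main hd Z hZ).1 ((DensityRR.rr_iff _).1 h)) (main hd Z hZ).2)

end Pool.Agent.Results.MP_fe3720_an.ProductWithLine
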