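import Pool.Agent.Work.MP_fe3720_an.V.MainV

/-! # RR-spaces, the density property and the volume density property

`Z` is any connected Stein manifold of pure dimension `d`, realised as a closed complex submanifold
of some `ℂ^N` given by global holomorphic equations; `hol Z` is the algebra of the holomorphic
functions on `Z`. Suppose that `Z` satisfies (RR4), and that `Z` has the volume density property for
some divergence `δ` (for example the divergence given by a holomorphic volume form). Then `Z` is an
RR-space, in both readings of the axiom (RR2) (`n ≥ 0`, and `n ≥ 1`); and `Z` has the density property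
if and only if some complete holomorphic vector field on `Z` has nonconstant divergence. -/

namespace Pool.Agent.Results.MP_fe3720_an.VolumeDensity

open Pool.Agent.MP_fe3720

theorem result {N d : ℕ} (Z : Set (Fin N → ℂ)) (hZ : IsSteinSubmanifold N d Z)
    (hconn : IsConnected Z) (h4 : DensityRR.RR4 (hol Z))
    (δ : DensityRR.Der (hol Z) → hol Z) (hδ : DensityRR.IsDivergence δ)
    (hV : DensityRR.VolumeDensity δ) :
    DensityRR.IsRR (hol Z) ∧ DensityRR.IsRRPos (hol Z) ∧
      (DensityRR.DensityProperty (hol Z) ↔ ∃ w : DensityRR.Der (hol Z),
        DensityRR.IsCompleteVF w ∧ ∃ x y, (δ w).1 x ≠ (δ w).1 y) :=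
  VV.mainV hZ hconn h4 hδ hV

end Pool.Agent.Results.MP_fe3720_an.VolumeDensity
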